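import Pool.Agent.helper56.TGT.SpecR
import Pool.Agent.helper89.TGA.TSW

/-!
# MP_3703a7_ag, project TGT, row TS3: a 3-cycle gives an operator of order three
-/

set_option autoImplicit false

namespace Pool.Agent.TGA

open Pool.Agent.TC Pool.Agent.TF Pool.Agent.CPT Pool.Agent.HC Pool.Agent.HC.SJ Pool.Agent.SJ
open Pool.Agent.TGT (tw Fr2)
open scoped TensorProduct

noncomputable section

/-! ## Pure lemmas -/

/-- the alternating group is three times transitive -/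
theorem TS3_alt (m : ℕ) (hm : 5 ≤ m) (a b c i j l : Fin m) (hab : a ≠ b) (hac : a ≠ c) (hbc : b ≠ c) (hij : i ≠ j) (hil : i ≠ l) (hjl : j ≠ l) :
    ∃ π ∈ alternatingGroup (Fin m), π a = i ∧ π b = j ∧ π c = l := by
  obtain ⟨τ, h1, h2, h3⟩ : ∃ τ : Equiv.Perm (Fin m), τ a = i ∧ τ b = j ∧ τ c = l := by
    obtain ⟨π, -, h1, h2⟩ := TSP_alt m hm a b i j hab hij
    refine ⟨Equiv.swap (π c) l * π, ?_, ?_, ?_⟩
    · rw [Equiv.Perm.mul_apply, h1]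
      apply Equiv.swap_apply_of_ne_of_ne _ hil
      intro h
      exact hac (π.injective (h1.trans h))
    · rw [Equiv.Perm.mul_apply, h2]
      apply Equiv.swap_apply_of_ne_of_ne _ hjl
      intro h
      exact hbc (π.injective (h2.trans h))
    · rw [Equiv.Perm.mul_apply, Equiv.swap_apply_left]
  by_cases hτ : Equiv.Perm.sign τ = 1
  · exact ⟨τ, Equiv.Perm.mem_alternatingGroup.mpr hτ, h1, h2, h3⟩
  · have hτ' : Equiv.Perm.sign τ = -1 := (Int.units_eq_one_or _).resolve_left hτ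
    obtain ⟨x, hx⟩ : ∃ x : Fin m, x ∉ ({i, j, l} : Finset (Fin m)) := by
      by_contra hcon
      push Not at hcon
      have h3 : (Finset.univ : Finset (Fin m)).card ≤ ({i, j, l} : Finset (Fin m)).card := Finset.card_le_card (fun x _ => hcon x)
      rw [Finset.card_univ, Fintype.card_fin] at h3
      have h4 := Finset.card_le_three (a := i) (b := j) (c := l)
      omega
    obtain ⟨y, hy⟩ : ∃ y : Fin m, y ∉ ({i, j, l, x} : Finset (Fin m)) := by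
      by_contra hcon
      push Not at hcon
      have h3 : (Finset.univ : Finset (Fin m)).card ≤ ({i, j, l, x} : Finset (Fin m)).card := Finset.card_le_card (fun x _ => hcon x)
      rw [Finset.card_univ, Fintype.card_fin] at h3
      have h4 := Finset.card_le_four (a := i) (b := j) (c := l) (d := x)
      omega
    simp only [Finset.mem_insert, Finset.mem_singleton, not_or] at hx hy
    refine ⟨Equiv.swap x y * τ, ?_, ?_, ?_, ?_⟩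
    · rw [Equiv.Perm.mem_alternatingGroup, map_mul, Equiv.Perm.sign_swap (Ne.symm hy.2.2.2), hτ']
      norm_num
    · rw [Equiv.Perm.mul_apply, h1]
      exact Equiv.swap_apply_of_ne_of_ne (Ne.symm hx.1) (Ne.symm hy.1)
    · rw [Equiv.Perm.mul_apply, h2]
      exact Equiv.swap_apply_of_ne_of_ne (Ne.symm hx.2.1) (Ne.symm hy.2.1)
    · rw [Equiv.Perm.mul_apply, h3]
      exact Equiv.swap_apply_of_ne_of_ne (Ne.symm hx.2.2) (Ne.symm hy.2.2.1)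

section lin
variable {k N : Type} [Field k] [CharZero k] [AddCommGroup N] [Module k N]

/-- the projector to the eigenspace of `μ` -/
def TS3_P (t : N →ₗ[k] N) (μ : k) : N →ₗ[k] N := (3⁻¹ : k) • (LinearMap.id + μ ^ 2 • t + μ • (t ∘ₗ t))

omit [CharZero k] in
theorem TS3_P_apply (t : N →ₗ[k] N) (μ : k) (f : N) : TS3_P t μ f = (3⁻¹ : k) • (f + μ ^ 2 • t f + μ • t (t f)) := rfl

theorem TS3_P_eig (t : N →ₗ[k] N) (ht : ∀ f, t (t (t f)) = f) (μ : k) (hμ : μ ^ 3 = 1) (f : N) : t (TS3_P t μ f) = μ • TS3_P t μ f := by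
  rw [TS3_P_apply, map_smul, map_add, map_add, map_smul, map_smul, ht, smul_comm μ]
  congr 1
  rw [smul_add, smul_add, smul_smul, smul_smul]
  have h1 : μ * μ ^ 2 = 1 := by rw [← hμ]; ring
  have h2 : μ * μ = μ ^ 2 := by ring
  rw [h1, h2, one_smul]
  abel

/-- on the eigenspace of `ν` -/
theorem TS3_P_of (t : N →ₗ[k] N) (μ ν : k) (e : N) (he : t e = ν • e) : TS3_P t μ e = (3⁻¹ * (1 + μ ^ 2 * ν + μ * ν ^ 2)) • e := by
  rw [TS3_P_apply, he, map_smul, he]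
  module

/-- an operator of order three whose spaces of eigenvalues `w`, `w²` are lines -/
theorem TS3_lin (t : N →ₗ[k] N) (ht : ∀ f, t (t (t f)) = f) (w : k) (hw : w ^ 2 + w + 1 = 0) (χ : N →ₗ[k] k)
    (hχ1 : ∀ f, t f = w • f → χ f = 0 → f = 0) (hχ2 : ∀ f, t f = w ^ 2 • f → χ f = 0 → f = 0)
    (e₁ e₂ : N) (he₁ : t e₁ = w • e₁) (he₂ : t e₂ = w ^ 2 • e₂) (h₁ : e₁ ≠ 0) (h₂ : e₂ ≠ 0) :
    ∃ ε₁ ε₂ : N →ₗ[k] k, Fr2 ε₁ ε₂ e₁ e₂ ∧ ∀ f, t f = tw ε₁ ε₂ e₁ e₂ w f := by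
  have h3 : (3 : k) ≠ 0 := three_ne_zero
  have hw3 : w ^ 3 = 1 := by linear_combination (w - 1) * hw
  have hw6 : (w ^ 2) ^ 3 = 1 := by linear_combination (w ^ 3 + 1) * (w - 1) * hw
  have hc1 : χ e₁ ≠ 0 := fun h => h₁ (hχ1 e₁ he₁ h)
  have hc2 : χ e₂ ≠ 0 := fun h => h₂ (hχ2 e₂ he₂ h)
  have hP1 : ∀ f, TS3_P t w f = ((χ e₁)⁻¹ * χ (TS3_P t w f)) • e₁ := by
    intro f
    rw [← sub_eq_zero]
    apply hχ1
    · rw [map_sub, map_smul, he₁, TS3_P_eig t ht w hw3, smul_sub, smul_comm w]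
    · rw [map_sub, map_smul, smul_eq_mul]
      field_simp
      ring
  have hP2 : ∀ f, TS3_P t (w ^ 2) f = ((χ e₂)⁻¹ * χ (TS3_P t (w ^ 2) f)) • e₂ := by
    intro f
    rw [← sub_eq_zero]
    apply hχ2
    · rw [map_sub, map_smul, he₂, TS3_P_eig t ht (w ^ 2) hw6, smul_sub, smul_comm (w ^ 2)]
    · rw [map_sub, map_smul, smul_eq_mul]
      field_simp
      ring
  have h11 : TS3_P t w e₁ = e₁ := by
    rw [TS3_P_of t w w e₁ he₁]
    have h : (3⁻¹ : k) * (1 + w ^ 2 * w + w * w ^ 2) = 1 := by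
      field_simp
      linear_combination 2 * hw3
    rw [h, one_smul]
  have h12 : TS3_P t w e₂ = 0 := by
    rw [TS3_P_of t w (w ^ 2) e₂ he₂]
    have h : (3⁻¹ : k) * (1 + w ^ 2 * w ^ 2 + w * (w ^ 2) ^ 2) = 0 := by
      have h' : 1 + w ^ 2 * w ^ 2 + w * (w ^ 2) ^ 2 = 0 := by linear_combination hw + (w + w ^ 2) * hw3
      rw [h', mul_zero]
    rw [h, zero_smul]
  have h21 : TS3_P t (w ^ 2) e₁ = 0 := by
    rw [TS3_P_of t (w ^ 2) w e₁ he₁]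
    have h : (3⁻¹ : k) * (1 + (w ^ 2) ^ 2 * w + w ^ 2 * w ^ 2) = 0 := by
      have h' : 1 + (w ^ 2) ^ 2 * w + w ^ 2 * w ^ 2 = 0 := by linear_combination hw + (w + w ^ 2) * hw3
      rw [h', mul_zero]
    rw [h, zero_smul]
  have h22 : TS3_P t (w ^ 2) e₂ = e₂ := by
    rw [TS3_P_of t (w ^ 2) (w ^ 2) e₂ he₂]
    have h : (3⁻¹ : k) * (1 + (w ^ 2) ^ 2 * w ^ 2 + w ^ 2 * (w ^ 2) ^ 2) = 1 := by
      field_simp
      linear_combination 2 * hw6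
    rw [h, one_smul]
  refine ⟨(χ e₁)⁻¹ • (χ ∘ₗ TS3_P t w), (χ e₂)⁻¹ • (χ ∘ₗ TS3_P t (w ^ 2)), ⟨?_, ?_, ?_, ?_⟩, ?_⟩
  · show (χ e₁)⁻¹ * χ (TS3_P t w e₁) = 1
    rw [h11]
    exact inv_mul_cancel₀ hc1
  · show (χ e₁)⁻¹ * χ (TS3_P t w e₂) = 0
    rw [h12, map_zero, mul_zero]
  · show (χ e₂)⁻¹ * χ (TS3_P t (w ^ 2) e₁) = 0
    rw [h21, map_zero, mul_zero]
  · show (χ e₂)⁻¹ * χ (TS3_P t (w ^ 2) e₂) = 1
    rw [h22]
    exact inv_mul_cancel₀ hc2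
  · intro f
    show t f = f + (w - 1) • (((χ e₁)⁻¹ * χ (TS3_P t w f)) • e₁) + (w ^ 2 - 1) • (((χ e₂)⁻¹ * χ (TS3_P t (w ^ 2) f)) • e₂)
    rw [← hP1, ← hP2, TS3_P_apply, TS3_P_apply]
    have e1 : f + (w - 1) • ((3⁻¹ : k) • (f + w ^ 2 • t f + w • t (t f))) + (w ^ 2 - 1) • ((3⁻¹ : k) • (f + (w ^ 2) ^ 2 • t f + w ^ 2 • t (t f))) =
        (1 + 3⁻¹ * (w - 1 + (w ^ 2 - 1))) • f + (3⁻¹ * ((w - 1) * w ^ 2 + (w ^ 2 - 1) * (w ^ 2) ^ 2)) • t f + (3⁻¹ * ((w - 1) * w + (w ^ 2 - 1) * w ^ 2)) • t (t f) := by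
      module
    rw [e1]
    have c1 : (1 : k) + 3⁻¹ * (w - 1 + (w ^ 2 - 1)) = 0 := by
      field_simp
      linear_combination hw
    have c2 : (3⁻¹ : k) * ((w - 1) * w ^ 2 + (w ^ 2 - 1) * (w ^ 2) ^ 2) = 1 := by
      field_simp
      linear_combination (w ^ 3 - w + 2) * hw3 - hw
    have c3 : (3⁻¹ : k) * ((w - 1) * w + (w ^ 2 - 1) * w ^ 2) = 0 := by
      have h' : (w - 1) * w + (w ^ 2 - 1) * w ^ 2 = 0 := by linear_combination w * hw3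
      rw [h', mul_zero]
    rw [c1, c2, c3, zero_smul, one_smul, zero_smul, zero_add, add_zero]

end lin

section pad
variable {p : ℕ} [Fact p.Prime]

theorem TS3_three (hp3 : p ≠ 3) : ‖(3 : ℂ_[p])‖ = 1 := by
  have h3 := TSP_nat p 3 (by
    intro h
    have h4 := (Nat.prime_dvd_prime_iff_eq (Fact.out : p.Prime) Nat.prime_three).mp h
    exact hp3 h4)
  simpa using h3

/-- the norms -/
theorem TS3_norm (hp3 : p ≠ 3) (μ : ℂ_[p]) (hμ : μ ^ 2 + μ + 1 = 0) : ‖μ‖ = 1 ∧ ‖μ - 1‖ = 1 ∧ ‖1 - μ ^ 2‖ = 1 := by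
  have h3 := TS3_three hp3
  have hμ3 : μ ^ 3 = 1 := by linear_combination (μ - 1) * hμ
  have h1 : ‖μ‖ = 1 := by
    have h := congrArg norm hμ3
    rw [norm_pow, norm_one] at h
    exact (pow_eq_one_iff_of_nonneg (norm_nonneg _) (by norm_num)).mp h
  have h4 : ‖μ - 1‖ ≤ 1 := by
    rw [sub_eq_add_neg]
    refine (PadicComplex.isNonarchimedean p _ _).trans (max_le h1.le ?_)
    rw [norm_neg, norm_one]
  have h5 : ‖1 - μ ^ 2‖ ≤ 1 := by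
    rw [sub_eq_add_neg]
    refine (PadicComplex.isNonarchimedean p _ _).trans (max_le norm_one.le ?_)
    rw [norm_neg, norm_pow, h1, one_pow]
  have h6 : (μ - 1) * (1 - μ ^ 2) = -3 := by linear_combination (-1) * hμ3 + hμ
  have h7 : ‖μ - 1‖ * ‖1 - μ ^ 2‖ = 1 := by rw [← norm_mul, h6, norm_neg, h3]
  refine ⟨h1, le_antisymm h4 ?_, le_antisymm h5 ?_⟩
  · by_contra hlt
    push Not at hlt
    have := mul_le_mul_of_nonneg_left h5 (norm_nonneg (μ - 1))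
    rw [h7, mul_one] at this
    exact absurd this (not_le.mpr hlt)
  · by_contra hlt
    push Not at hlt
    have := mul_le_mul_of_nonneg_right h4 (norm_nonneg (1 - μ ^ 2))
    rw [h7, one_mul] at this
    exact absurd this (not_le.mpr hlt)

/-- a root of `X² + X + 1` -/
theorem TS3_root : ∃ w : ℂ_[p], w ^ 2 + w + 1 = 0 := by
  obtain ⟨s, hs⟩ := IsAlgClosed.exists_pow_nat_eq (-3 : ℂ_[p]) (n := 2) (by norm_num)
  refine ⟨(s - 1) / 2, ?_⟩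
  have h2 : (2 : ℂ_[p]) ≠ 0 := two_ne_zero
  field_simp
  linear_combination hs

variable {N : Type} [AddCommGroup N] [Module ℂ_[p] N] {m : ℕ}

/-- (a): the space of eigenvalue `μ` is at most a line -/
theorem TS3_a (hp3 : p ≠ 3) (μ : ℂ_[p]) (hμ : μ ^ 2 + μ + 1 = 0) (C : N →ₗ[ℂ_[p]] (Fin (m + 1) → ℂ_[p])) (hC : Function.Injective C) (hC0 : ∀ f, C f 0 = 0) (ρ : ℝ) (hρ0 : 0 ≤ ρ) (hρ1 : ρ < 1)
    (a b c j₀ : Fin (m + 1)) (π : Equiv.Perm (Fin (m + 1))) (ha : π a = b) (hb : π b = c) (hj₀ : π j₀ = j₀) (hπ : ∀ j, j ≠ a → j ≠ b → j ≠ c → π j = j) (t : N →ₗ[ℂ_[p]] N)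
    (ht : ∀ f i j, ‖(C (t f) i - C (t f) j) - (C f (π i) - C f (π j))‖ ≤ ρ * ‖C f‖) (f : N) (hf : t f = μ • f) (hfa : C f a - C f j₀ = 0) : f = 0 := by
  obtain ⟨n1, n2, -⟩ := TS3_norm hp3 μ hμ
  have hd0 : ∀ i, ‖μ * (C f i - C f j₀) - (C f (π i) - C f j₀)‖ ≤ ρ * ‖C f‖ := by
    intro i
    have h := ht f i j₀
    rw [hf, map_smul, Pi.smul_apply, Pi.smul_apply, smul_eq_mul, smul_eq_mul, hj₀, ← mul_sub] at h
    exact h
  have hnext : ∀ i, ‖C f i - C f j₀‖ ≤ ρ * ‖C f‖ → ‖C f (π i) - C f j₀‖ ≤ ρ * ‖C f‖ := by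
    intro i hi
    have e : C f (π i) - C f j₀ = -(μ * (C f i - C f j₀) - (C f (π i) - C f j₀)) + μ * (C f i - C f j₀) := by ring
    rw [e]
    refine (PadicComplex.isNonarchimedean p _ _).trans (max_le ?_ ?_)
    · rw [norm_neg]
      exact hd0 i
    · rw [norm_mul, n1, one_mul]
      exact hi
  have hda : ‖C f a - C f j₀‖ ≤ ρ * ‖C f‖ := by
    rw [hfa, norm_zero]
    exact mul_nonneg hρ0 (norm_nonneg _)
  have hdb : ‖C f b - C f j₀‖ ≤ ρ * ‖C f‖ := by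
    rw [← ha]
    exact hnext a hda
  have hdc : ‖C f c - C f j₀‖ ≤ ρ * ‖C f‖ := by
    rw [← hb]
    exact hnext b hdb
  have hd : ∀ i, ‖C f i - C f j₀‖ ≤ ρ * ‖C f‖ := by
    intro j
    by_cases hja : j = a
    · rw [hja]
      exact hda
    by_cases hjb : j = b
    · rw [hjb]
      exact hdb
    by_cases hjc : j = c
    · rw [hjc]
      exact hdc
    have h := hd0 j
    rw [hπ j hja hjb hjc] at h
    have h4 : μ * (C f j - C f j₀) - (C f j - C f j₀) = (μ - 1) * (C f j - C f j₀) := by ring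
    rw [h4, norm_mul, n2, one_mul] at h
    exact h
  apply TSP_small (Nat.succ_pos m) C hC ρ hρ0 hρ1 f
  intro j
  have e : C f j = (C f j - C f j₀) + -(C f 0 - C f j₀) := by
    rw [hC0]
    ring
  rw [e]
  refine (PadicComplex.isNonarchimedean p _ _).trans (max_le (hd j) ?_)
  rw [norm_neg]
  exact hd 0

/-- (b): the values at three points are not always in a close relation -/
theorem TS3_b (hp3 : p ≠ 3) (μ : ℂ_[p]) (hμ : μ ^ 2 + μ + 1 = 0) (hm : 4 ≤ m) (C : N →ₗ[ℂ_[p]] (Fin (m + 1) → ℂ_[p])) (hC : Function.Injective C) (hC0 : ∀ f, C f 0 = 0) (ρ : ℝ) (hρ0 : 0 ≤ ρ) (hρ1 : ρ < 1)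
    (hact : ∀ π ∈ alternatingGroup (Fin (m + 1)), ∃ g : N → N, ∀ f i j, ‖(C (g f) i - C (g f) j) - (C f (π i) - C f (π j))‖ ≤ ρ * ‖C f‖)
    (a b c : Fin (m + 1)) (hab : a ≠ b) (hac : a ≠ c) (hbc : b ≠ c) (hN : ∃ f : N, f ≠ 0) : ∃ f : N, ρ * ‖C f‖ < ‖(C f c - C f a) + μ * (C f b - C f a)‖ := by
  by_contra hcon
  push Not at hcon
  obtain ⟨n1, -, n3⟩ := TS3_norm hp3 μ hμ
  obtain ⟨f, hf0⟩ := hN
  apply hf0
  have hrel : ∀ i j l, i ≠ j → i ≠ l → j ≠ l → ‖(C f l - C f i) + μ * (C f j - C f i)‖ ≤ ρ * ‖C f‖ := by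
    intro i j l hij hil hjl
    obtain ⟨π, hπ, ha, hb, hc⟩ := TS3_alt (m + 1) (by omega) a b c i j l hab hac hbc hij hil hjl
    obtain ⟨g, hg⟩ := hact π hπ
    have h1 := hg f c a
    have h2 := hg f b a
    rw [ha, hc] at h1
    rw [ha, hb] at h2
    have h3 : ‖C (g f)‖ ≤ ‖C f‖ := TSW_size C hC0 ρ hρ1 π f (g f) (hg f)
    have h4 : ‖(C (g f) c - C (g f) a) + μ * (C (g f) b - C (g f) a)‖ ≤ ρ * ‖C f‖ := (hcon (g f)).trans (mul_le_mul_of_nonneg_left h3 hρ0)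
    have e : (C f l - C f i) + μ * (C f j - C f i) = (-((C (g f) c - C (g f) a) - (C f l - C f i)) + -(μ * ((C (g f) b - C (g f) a) - (C f j - C f i)))) +
        ((C (g f) c - C (g f) a) + μ * (C (g f) b - C (g f) a)) := by ring
    rw [e]
    refine (PadicComplex.isNonarchimedean p _ _).trans (max_le ?_ h4)
    refine (PadicComplex.isNonarchimedean p _ _).trans (max_le ?_ ?_)
    · rw [norm_neg]
      exact h1
    · rw [norm_neg, norm_mul, n1, one_mul]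
      exact h2
  have hdiff : ∀ i l, ‖C f l - C f i‖ ≤ ρ * ‖C f‖ := by
    intro i l
    by_cases hil : i = l
    · rw [hil, sub_self, norm_zero]
      exact mul_nonneg hρ0 (norm_nonneg _)
    obtain ⟨j, hj⟩ : ∃ x : Fin (m + 1), x ∉ ({i, l} : Finset (Fin (m + 1))) := by
      by_contra hcon
      push Not at hcon
      have h3 : (Finset.univ : Finset (Fin (m + 1))).card ≤ ({i, l} : Finset (Fin (m + 1))).card := Finset.card_le_card (fun x _ => hcon x)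
      rw [Finset.card_univ, Fintype.card_fin] at h3
      have h4 := Finset.card_le_two (a := i) (b := l)
      omega
    simp only [Finset.mem_insert, Finset.mem_singleton, not_or] at hj
    have h1 := hrel i j l (Ne.symm hj.1) hil hj.2
    have h2 := hrel i l j hil (Ne.symm hj.1) (Ne.symm hj.2)
    have e : (1 - μ ^ 2) * (C f l - C f i) = ((C f l - C f i) + μ * (C f j - C f i)) + -(μ * ((C f j - C f i) + μ * (C f l - C f i))) := by ring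
    have h3 : ‖(1 - μ ^ 2) * (C f l - C f i)‖ ≤ ρ * ‖C f‖ := by
      rw [e]
      refine (PadicComplex.isNonarchimedean p _ _).trans (max_le h1 ?_)
      rw [norm_neg, norm_mul, n1, one_mul]
      exact h2
    rw [norm_mul, n3, one_mul] at h3
    exact h3
  apply TSP_small (Nat.succ_pos m) C hC ρ hρ0 hρ1 f
  intro i
  have h1 := hdiff 0 i
  rw [hC0, sub_zero] at h1
  exact h1

/-- (b): eigenvectors -/
theorem TS3_e (hp3 : p ≠ 3) (μ : ℂ_[p]) (hμ : μ ^ 2 + μ + 1 = 0) (hm : 4 ≤ m) (C : N →ₗ[ℂ_[p]] (Fin (m + 1) → ℂ_[p])) (hC : Function.Injective C) (hC0 : ∀ f, C f 0 = 0) (ρ : ℝ) (hρ0 : 0 ≤ ρ) (hρ1 : ρ < 1)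
    (hact : ∀ π ∈ alternatingGroup (Fin (m + 1)), ∃ g : N → N, ∀ f i j, ‖(C (g f) i - C (g f) j) - (C f (π i) - C f (π j))‖ ≤ ρ * ‖C f‖)
    (a b c j₀ : Fin (m + 1)) (hab : a ≠ b) (hac : a ≠ c) (hbc : b ≠ c) (π : Equiv.Perm (Fin (m + 1))) (ha : π a = b) (hb : π b = c) (hj₀ : π j₀ = j₀) (hN : ∃ f : N, f ≠ 0) (t : N →ₗ[ℂ_[p]] N)
    (htt : ∀ f, t (t (t f)) = f) (ht : ∀ f i j, ‖(C (t f) i - C (t f) j) - (C f (π i) - C f (π j))‖ ≤ ρ * ‖C f‖) : ∃ e : N, e ≠ 0 ∧ t e = μ • e := by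
  obtain ⟨n1, -, -⟩ := TS3_norm hp3 μ hμ
  obtain ⟨f, hf⟩ := TS3_b hp3 μ hμ hm C hC hC0 ρ hρ0 hρ1 hact a b c hab hac hbc hN
  refine ⟨t (t f) + μ • t f + μ ^ 2 • f, ?_, ?_⟩
  · intro h0
    apply absurd hf
    rw [not_lt]
    have h1 := ht (t f) a j₀
    have h2 := ht f b j₀
    have h3 := ht f a j₀
    rw [ha, hj₀] at h1 h3
    rw [hb, hj₀] at h2
    have h4 : ‖C (t f)‖ ≤ ‖C f‖ := TSW_size C hC0 ρ hρ1 π f (t f) (ht f)
    have h5 := h1.trans (mul_le_mul_of_nonneg_left h4 hρ0)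
    have h6 : C (t (t f)) a - C (t (t f)) j₀ + μ * (C (t f) a - C (t f) j₀) + μ ^ 2 * (C f a - C f j₀) = 0 := by
      have h7 : C (t (t f) + μ • t f + μ ^ 2 • f) = 0 := by rw [h0, map_zero]
      rw [map_add, map_add, map_smul, map_smul] at h7
      have h8 := congrFun h7 a
      have h9 := congrFun h7 j₀
      simp only [Pi.add_apply, Pi.smul_apply, smul_eq_mul, Pi.zero_apply] at h8 h9
      linear_combination h8 - h9
    have e : (C f c - C f a) + μ * (C f b - C f a) = (-((C (t (t f)) a - C (t (t f)) j₀) - (C (t f) b - C (t f) j₀)) + -((C (t f) b - C (t f) j₀) - (C f c - C f j₀))) +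
        -(μ * ((C (t f) a - C (t f) j₀) - (C f b - C f j₀))) := by
      linear_combination h6 - (C f a - C f j₀) * hμ
    rw [e]
    refine (PadicComplex.isNonarchimedean p _ _).trans (max_le ?_ ?_)
    · refine (PadicComplex.isNonarchimedean p _ _).trans (max_le ?_ ?_)
      · rw [norm_neg]
        exact h5
      · rw [norm_neg]
        exact h2
    · rw [norm_neg, norm_mul, n1, one_mul]
      exact h3
  · rw [map_add, map_add, map_smul, map_smul, htt]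
    have hμ3 : μ ^ 3 = 1 := by linear_combination (μ - 1) * hμ
    rw [smul_add, smul_add, smul_smul, smul_smul, ← pow_two, ← pow_succ', hμ3, one_smul]
    abel

/-- the pure part -/
theorem TS3_pure (hTEI : TEI_stmt) [FiniteDimensional ℂ_[p] N] (hp3 : p ≠ 3) (hm : 4 ≤ m) (C : N →ₗ[ℂ_[p]] (Fin (m + 1) → ℂ_[p]))
    (hC : Function.Injective C) (hC0 : ∀ f, C f 0 = 0) (ρ : ℝ) (hρ0 : 0 ≤ ρ) (hρ1 : ρ < 1)
    (hact : ∀ π ∈ alternatingGroup (Fin (m + 1)), ∃ g : N → N, ∀ f i j, ‖(C (g f) i - C (g f) j) - (C f (π i) - C f (π j))‖ ≤ ρ * ‖C f‖)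
    (a b c : Fin (m + 1)) (hab : a ≠ b) (hac : a ≠ c) (hbc : b ≠ c) (π : Equiv.Perm (Fin (m + 1))) (ha : π a = b) (hb : π b = c) (hc : π c = a) (hπ : ∀ j, j ≠ a → j ≠ b → j ≠ c → π j = j)
    (hN : ∃ f : N, f ≠ 0) (g : N →ₗ[ℂ_[p]] N)
    (hg : ∀ f i j, ‖(C (g f) i - C (g f) j) - (C f (π i) - C f (π j))‖ ≤ ρ * ‖C f‖) :
    ∃ (ε₁ ε₂ : N →ₗ[ℂ_[p]] ℂ_[p]) (e₁ e₂ : N) (w : ℂ_[p]), Fr2 ε₁ ε₂ e₁ e₂ ∧ w ^ 2 + w + 1 = 0 ∧ ∀ Q : Submodule ℂ_[p] (N →ₗ[ℂ_[p]] N), (∀ R ∈ Q, ∃ R' ∈ Q, g ∘ₗ R = R' ∘ₗ g) →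
      ∀ R ∈ Q, ∃ R' ∈ Q, tw ε₁ ε₂ e₁ e₂ w ∘ₗ R = R' ∘ₗ tw ε₁ ε₂ e₁ e₂ w := by
  have hcg : ∀ f, ‖C (g f)‖ ≤ ‖C f‖ := fun f => TSW_size C hC0 ρ hρ1 π f (g f) (hg f)
  have hπ3 : ∀ j, π (π (π j)) = j := by
    intro j
    by_cases hja : j = a
    · rw [hja, ha, hb, hc]
    by_cases hjb : j = b
    · rw [hjb, hb, hc, ha]
    by_cases hjc : j = c
    · rw [hjc, hc, ha, hb]
    rw [hπ j hja hjb hjc, hπ j hja hjb hjc, hπ j hja hjb hjc]
  have hgg : ∀ f, ‖C ((g ^ 3 : Module.End ℂ_[p] N) f - f)‖ ≤ ρ * ‖C f‖ := by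
    intro f
    refine (pi_norm_le_iff_of_nonneg (mul_nonneg hρ0 (norm_nonneg _))).2 fun l => ?_
    have e0 : (g ^ 3 : Module.End ℂ_[p] N) f = g (g (g f)) := by rw [pow_succ, pow_two]; rfl
    have e : C ((g ^ 3 : Module.End ℂ_[p] N) f - f) l = (((C (g (g (g f))) l - C (g (g (g f))) 0) - (C (g (g f)) (π l) - C (g (g f)) (π 0))) +
        ((C (g (g f)) (π l) - C (g (g f)) (π 0)) - (C (g f) (π (π l)) - C (g f) (π (π 0))))) + ((C (g f) (π (π l)) - C (g f) (π (π 0))) - (C f (π (π (π l))) - C f (π (π (π 0))))) := by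
      rw [e0, map_sub, Pi.sub_apply, hπ3, hπ3, hC0, hC0]
      ring
    rw [e]
    refine (PadicComplex.isNonarchimedean p _ _).trans (max_le ?_ (hg f _ _))
    refine (PadicComplex.isNonarchimedean p _ _).trans (max_le ?_ ?_)
    · exact (hg (g (g f)) l 0).trans (mul_le_mul_of_nonneg_left ((hcg _).trans (hcg f)) hρ0)
    · exact (hg (g f) _ _).trans (mul_le_mul_of_nonneg_left (hcg f) hρ0)
  have hcop : Nat.Coprime 3 p := (Nat.coprime_primes Nat.prime_three (Fact.out : p.Prime)).2 (Ne.symm hp3)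
  obtain ⟨t, ht1, ht2, ht3⟩ := hTEI p N (m + 1) C g 3 ρ (by norm_num) hcop hρ0 hρ1 hC hcg hgg
  have htt : ∀ f, t (t (t f)) = f := by
    intro f
    have h1 := ht1 f
    rw [pow_succ, pow_two] at h1
    exact h1
  have htc : ∀ f i j, ‖(C (t f) i - C (t f) j) - (C f (π i) - C f (π j))‖ ≤ ρ * ‖C f‖ := by
    intro f i j
    have e : (C (t f) i - C (t f) j) - (C f (π i) - C f (π j)) =
        (C (t f - g f) i + -C (t f - g f) j) + ((C (g f) i - C (g f) j) - (C f (π i) - C f (π j))) := by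
      rw [map_sub, Pi.sub_apply, Pi.sub_apply]
      ring
    rw [e]
    refine (PadicComplex.isNonarchimedean p _ _).trans (max_le ?_ (hg f i j))
    refine (PadicComplex.isNonarchimedean p _ _).trans (max_le ?_ ?_)
    · exact (norm_le_pi_norm (C (t f - g f)) i).trans (ht2 f)
    · rw [norm_neg]
      exact (norm_le_pi_norm (C (t f - g f)) j).trans (ht2 f)
  -- a point outside
  obtain ⟨j₀, hj₀⟩ : ∃ x : Fin (m + 1), x ∉ ({a, b, c} : Finset (Fin (m + 1))) := by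
    by_contra hcon
    push Not at hcon
    have h3 : (Finset.univ : Finset (Fin (m + 1))).card ≤ ({a, b, c} : Finset (Fin (m + 1))).card := Finset.card_le_card (fun x _ => hcon x)
    rw [Finset.card_univ, Fintype.card_fin] at h3
    have h4 := Finset.card_le_three (a := a) (b := b) (c := c)
    omega
  simp only [Finset.mem_insert, Finset.mem_singleton, not_or] at hj₀
  have hj : π j₀ = j₀ := hπ j₀ hj₀.1 hj₀.2.1 hj₀.2.2
  obtain ⟨w, hw⟩ := TS3_root (p := p)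
  have hw' : (w ^ 2) ^ 2 + w ^ 2 + 1 = 0 := by linear_combination (w ^ 2 - w + 1) * hw
  -- eigenvectors
  obtain ⟨e₁, h₁, he₁⟩ := TS3_e hp3 w hw hm C hC hC0 ρ hρ0 hρ1 hact a b c j₀ hab hac hbc π ha hb hj hN t htt htc
  obtain ⟨e₂, h₂, he₂⟩ := TS3_e hp3 (w ^ 2) hw' hm C hC hC0 ρ hρ0 hρ1 hact a b c j₀ hab hac hbc π ha hb hj hN t htt htc
  obtain ⟨χ, hχ⟩ : ∃ χ : N →ₗ[ℂ_[p]] ℂ_[p], ∀ f, χ f = C f a - C f j₀ := by
    refine ⟨{ toFun := fun f => C f a - C f j₀, map_add' := ?_, map_smul' := ?_ }, fun f => rfl⟩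
    · intro x y
      rw [map_add, Pi.add_apply, Pi.add_apply]
      ring
    · intro x y
      rw [map_smul, Pi.smul_apply, Pi.smul_apply, smul_eq_mul, smul_eq_mul, RingHom.id_apply, smul_eq_mul]
      ring
  obtain ⟨ε₁, ε₂, hFr, hε⟩ := TS3_lin t htt w hw χ
    (fun f hf1 hf2 => TS3_a hp3 w hw C hC hC0 ρ hρ0 hρ1 a b c j₀ π ha hb hj hπ t htc f hf1 (by rw [← hχ]; exact hf2))
    (fun f hf1 hf2 => TS3_a hp3 (w ^ 2) hw' C hC hC0 ρ hρ0 hρ1 a b c j₀ π ha hb hj hπ t htc f hf1 (by rw [← hχ]; exact hf2)) e₁ e₂ he₁ he₂ h₁ h₂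
  refine ⟨ε₁, ε₂, e₁, e₂, w, hFr, hw, ?_⟩
  have htw : tw ε₁ ε₂ e₁ e₂ w = t := by
    apply LinearMap.ext
    intro x
    exact (hε x).symm
  intro Q hQ
  rw [htw]
  exact ht3 Q hQ

end pad

theorem TS3 (hTEI : TEI_stmt) (hMXW : MXW_stmt) (hACW : ACW_stmt) (hKDM : KDM_stmt) (hFDN : FDN_stmt) (hREP : REP_stmt) (hCMG : CMG_stmt) : TS3_stmt := by
  intro F U _ _ _ L hL z V p k n m _ P h hp3 ξ hξ
  have hp : p.Prime := Fact.out
  have hfd : FiniteDimensional ℂ_[p] (NQ L p) := (hFDN U L hL p).2.1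
  obtain ⟨hρ, hM⟩ := hMXW F U L hL z V p k n m P h ξ hξ
  -- the dimension
  have hpk : 0 < p ^ k := pow_pos hp.pos k
  have hdim := hKDM U L hL z h.stab (p ^ k) hpk h.cyc p ξ hξ (TSW_N h ξ) (fun f => Iff.rfl)
  rw [h.dim] at hdim
  have hN : Module.finrank ℂ_[p] (TSW_N h ξ) = n := Nat.eq_of_mul_eq_mul_right (Nat.totient_pos.mpr hpk) hdim
  have hm := h.hm
  have hn : 0 < n := by
    rcases h.typ with ⟨h1, -⟩ | ⟨h1, -⟩ | h1
    · omega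
    · omega
    · omega
  have hN0 : ∃ f : TSW_N h ξ, f ≠ 0 := by
    have : Nontrivial (TSW_N h ξ) := Module.nontrivial_of_finrank_pos (R := ℂ_[p]) (by rw [hN]; exact hn)
    exact exists_ne 0
  -- the coordinates
  have hAm : ∀ (τ : Aut ℂ) (G : VM (ctm U L) (ctm U L) p) (π : Equiv.Perm (Fin (m + 1))), Fix F τ → V.IsGal τ G → (∀ i j, V.Act τ (P i - P j) (P (π i) - P (π j))) →
      ∃ g : TSW_N h ξ →ₗ[ℂ_[p]] TSW_N h ξ, (∀ f, ((g f : TSW_N h ξ) : NQ L p) = (f : NQ L p) ∘ₗ TSW_l G) ∧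
        ∀ (f : TSW_N h ξ) i j, ‖((TSW_c h ∘ₗ (TSW_N h ξ).subtype) (g f) i - (TSW_c h ∘ₗ (TSW_N h ξ).subtype) (g f) j) -
          ((TSW_c h ∘ₗ (TSW_N h ξ).subtype) f (π i) - (TSW_c h ∘ₗ (TSW_N h ξ).subtype) f (π j))‖ ≤ ‖1 - ξ‖ * ‖(TSW_c h ∘ₗ (TSW_N h ξ).subtype) f‖ := by
    intro τ G π hτ hG hπ
    refine ⟨{ toFun := fun f => ⟨(f : NQ L p) ∘ₗ TSW_l G, TSW_gal hCMG hL h ξ τ hτ G hG f f.2⟩, map_add' := ?_, map_smul' := ?_ }, fun f => rfl, ?_⟩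
    · intro f g
      apply Subtype.ext
      show ((f : NQ L p) + (g : NQ L p)) ∘ₗ TSW_l G = (f : NQ L p) ∘ₗ TSW_l G + (g : NQ L p) ∘ₗ TSW_l G
      rw [LinearMap.add_comp]
    · intro x f
      apply Subtype.ext
      show (x • (f : NQ L p)) ∘ₗ TSW_l G = x • ((f : NQ L p) ∘ₗ TSW_l G)
      rw [LinearMap.smul_comp]
    · intro f i j
      have h1 := hACW F U L hL z V p k n m P h ξ hξ τ G π hτ hG hπ f f.2 ‖(TSW_c h ∘ₗ (TSW_N h ξ).subtype) f‖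
        (fun j => norm_le_pi_norm ((TSW_c h ∘ₗ (TSW_N h ξ).subtype) f) j) i j
      have h2 : ∀ v v' : VQ L p, (f : NQ L p) (TSW_l G (v - v')) = (f : NQ L p) (TSW_l G v) - (f : NQ L p) (TSW_l G v') := by
        intro v v'
        rw [map_sub, map_sub]
      have h3 : ∀ v v' : VQ L p, (f : NQ L p) (v - v') = (f : NQ L p) v - (f : NQ L p) v' := fun v v' => map_sub _ _ _
      rw [TSW_jQ, TSW_jQ, h3] at h1
      have h4 := h2 (jQ L p (h.w i)) (jQ L p (h.w j))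
      have h5 : (f : NQ L p) (linV G (jQ L p (h.w i) - jQ L p (h.w j))) = (f : NQ L p) (TSW_l G (jQ L p (h.w i))) - (f : NQ L p) (TSW_l G (jQ L p (h.w j))) := h4
      rw [h5] at h1
      exact h1
  have hREP' : ∀ τ : Aut ℂ, Fix F τ → ∃ G : VM (ctm U L) (ctm U L) p, V.IsGal τ G := by
    intro τ hτ
    obtain ⟨G, hG, -⟩ := @hREP (ctm U L) (inferInstanceAs (FiniteDimensional ℂ U)) hL F V p _ τ hτ
    exact ⟨G, hG⟩
  -- a 3-cycle
  obtain ⟨a, b, c, hab, hac, hbc⟩ : ∃ a b c : Fin (m + 1), a ≠ b ∧ a ≠ c ∧ b ≠ c :=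
    ⟨⟨0, by omega⟩, ⟨1, by omega⟩, ⟨2, by omega⟩, by rw [Ne, Fin.mk.injEq]; omega, by rw [Ne, Fin.mk.injEq]; omega, by rw [Ne, Fin.mk.injEq]; omega⟩
  obtain ⟨π, hπA, hπa, hπb, hπc, hπj⟩ : ∃ π ∈ alternatingGroup (Fin (m + 1)), π a = b ∧ π b = c ∧ π c = a ∧ ∀ j, j ≠ a → j ≠ b → j ≠ c → π j = j := by
    refine ⟨Equiv.swap a b * Equiv.swap b c, ?_, ?_, ?_, ?_, ?_⟩
    · rw [Equiv.Perm.mem_alternatingGroup, map_mul, Equiv.Perm.sign_swap hab, Equiv.Perm.sign_swap hbc]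
      norm_num
    · rw [Equiv.Perm.mul_apply, Equiv.swap_apply_of_ne_of_ne hab hac, Equiv.swap_apply_left]
    · rw [Equiv.Perm.mul_apply, Equiv.swap_apply_left, Equiv.swap_apply_of_ne_of_ne (Ne.symm hac) (Ne.symm hbc)]
    · rw [Equiv.Perm.mul_apply, Equiv.swap_apply_right, Equiv.swap_apply_right]
    · intro j h1 h2 h3
      rw [Equiv.Perm.mul_apply, Equiv.swap_apply_of_ne_of_ne h2 h3, Equiv.swap_apply_of_ne_of_ne h1 h2]
  obtain ⟨σ, hσ, hact⟩ := h.alt π hπA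
  obtain ⟨G, hG⟩ := hREP' σ hσ
  obtain ⟨g, hg1, hg2⟩ := hAm σ G π hσ hG hact
  obtain ⟨ε₁, ε₂, e₁, e₂, w, hFr, hw, htw⟩ := TS3_pure hTEI hp3 h.hm (TSW_c h ∘ₗ (TSW_N h ξ).subtype) (by
      rw [injective_iff_map_eq_zero]
      intro x hx
      exact Subtype.ext (TSW_inj hMXW hL h ξ hξ x x.2 hx)) (fun f => TSW_c0 h f) ‖1 - ξ‖ (norm_nonneg _) hρ (by
      intro π hπ
      obtain ⟨τ, hτ, hτ2⟩ := h.alt π hπ
      obtain ⟨G', hG'⟩ := hREP' τ hτ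
      obtain ⟨g', -, hg'⟩ := hAm τ G' π hτ hG' hτ2
      exact ⟨g', hg'⟩) a b c hab hac hbc π hπa hπb hπc hπj hN0 g hg2
  obtain ⟨ε₁', hε₁'⟩ := LinearMap.exists_extend ε₁
  obtain ⟨ε₂', hε₂'⟩ := LinearMap.exists_extend ε₂
  have hε1 : ∀ f : TSW_N h ξ, ε₁' (f : NQ L p) = ε₁ f := fun f => congrArg (fun l : TSW_N h ξ →ₗ[ℂ_[p]] ℂ_[p] => l f) hε₁'
  have hε2 : ∀ f : TSW_N h ξ, ε₂' (f : NQ L p) = ε₂ f := fun f => congrArg (fun l : TSW_N h ξ →ₗ[ℂ_[p]] ℂ_[p] => l f) hε₂'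
  have htw2 : ∀ f : TSW_N h ξ, tw ε₁' ε₂' (e₁ : NQ L p) (e₂ : NQ L p) w (f : NQ L p) = ((tw ε₁ ε₂ e₁ e₂ w f : TSW_N h ξ) : NQ L p) := by
    intro f
    show (f : NQ L p) + (w - 1) • (ε₁' (f : NQ L p) • (e₁ : NQ L p)) + (w ^ 2 - 1) • (ε₂' (f : NQ L p) • (e₂ : NQ L p)) =
      (f : NQ L p) + (w - 1) • (ε₁ f • (e₁ : NQ L p)) + (w ^ 2 - 1) • (ε₂ f • (e₂ : NQ L p))
    rw [hε1, hε2]
  refine ⟨ε₁', ε₂', e₁, e₂, w, e₁.2, e₂.2, ⟨by rw [hε1]; exact hFr.a11, by rw [hε1]; exact hFr.a12, by rw [hε2]; exact hFr.a21, by rw [hε2]; exact hFr.a22⟩, hw, ?_⟩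
  intro Q hQ1 hQ2 R hR
  -- restriction
  have hres : ∀ R ∈ Q, ∃ R₀ : TSW_N h ξ →ₗ[ℂ_[p]] TSW_N h ξ, ∀ f : TSW_N h ξ, (R₀ f : NQ L p) = R f := by
    intro R hR
    exact ⟨R.restrict (fun f hf => hQ1 R hR f hf), fun f => rfl⟩
  obtain ⟨R₀, hR₀⟩ := hres R hR
  obtain ⟨R₁, ⟨R', hR', hR₁⟩, hcomm⟩ := htw (TSW_Q h ξ Q) (by
    rintro A ⟨B, hB, hAB⟩
    obtain ⟨B', hB', hBB⟩ := hQ2 σ G hσ hG B hB
    obtain ⟨B₀, hB₀⟩ := hres B' hB'
    refine ⟨B₀, ⟨B', hB', hB₀⟩, ?_⟩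
    apply LinearMap.ext
    intro f
    apply Subtype.ext
    show ((g (A f) : TSW_N h ξ) : NQ L p) = ((B₀ (g f) : TSW_N h ξ) : NQ L p)
    rw [hg1, hAB, hB₀, hg1]
    exact hBB f f.2) R₀ ⟨R, hR, hR₀⟩
  refine ⟨R', hR', ?_⟩
  intro f hf
  have h1 := congrArg (fun l : TSW_N h ξ →ₗ[ℂ_[p]] TSW_N h ξ => ((l ⟨f, hf⟩ : TSW_N h ξ) : NQ L p)) hcomm
  have h2 : ((tw ε₁ ε₂ e₁ e₂ w (R₀ ⟨f, hf⟩) : TSW_N h ξ) : NQ L p) = ((R₁ (tw ε₁ ε₂ e₁ e₂ w ⟨f, hf⟩) : TSW_N h ξ) : NQ L p) := h1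
  rw [← htw2, hR₁, ← htw2, hR₀] at h2
  exact h2

end

end Pool.Agent.TGA
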